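import Pool.Agent.Y395.GX.Stm

/-! Extending an induced copy by exposing new edges (job GX-STEP of helper395; helper954). -/

set_option autoImplicit false

namespace Pool.Agent.Y954.GX

open Finset
open Pool.Agent.Y395.GX

lemma Ex_mono {α : Type} {p : ℝ} (hp0 : 0 ≤ p) (hp1 : p ≤ 1) {E : Finset α}
    {f g : Finset α → ℝ} (h : ∀ F ⊆ E, f F ≤ g F) : Ex p E f ≤ Ex p E g := by
  unfold Ex
  refine Finset.sum_le_sum fun F hF => ?_
  exact mul_le_mul_of_nonneg_left (h F (Finset.mem_powerset.1 hF))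
    (mul_nonneg (pow_nonneg hp0 _) (pow_nonneg (by linarith) _))

lemma Ex_add {α : Type} (p : ℝ) (E : Finset α) (f g : Finset α → ℝ) :
    Ex p E (fun F => f F + g F) = Ex p E f + Ex p E g := by
  unfold Ex
  rw [← Finset.sum_add_distrib]
  exact Finset.sum_congr rfl fun F _ => by ring

lemma gr_adj {V : Type} (F : Finset (Sym2 V)) (x y : V) :
    (gr F).Adj x y ↔ s(x, y) ∈ F ∧ x ≠ y := by
  unfold gr
  rw [SimpleGraph.fromEdgeSet_adj, Finset.mem_coe]

open scoped Classical in
lemma mem_ed {V : Type} [Fintype V] (G : SimpleGraph V) (x y : V) :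
    s(x, y) ∈ ed G ↔ G.Adj x y := by
  unfold ed
  rw [SimpleGraph.mem_edgeFinset, SimpleGraph.mem_edgeSet]

open scoped Classical in
/-- edges with an end outside of `U` do not change the graph on `U` -/
lemma adj_union {V : Type} (U : Finset V) (F₀ F : Finset (Sym2 V))
    (hF : ∀ e ∈ F, ¬ ∀ x ∈ e, x ∈ U) {x y : V} (hx : x ∈ U) (hy : y ∈ U) :
    (gr (F₀ ∪ F)).Adj x y ↔ (gr F₀).Adj x y := by
  rw [gr_adj, gr_adj, Finset.mem_union]
  constructor
  · rintro ⟨h | h, hne⟩
    · exact ⟨h, hne⟩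
    · exfalso
      refine hF _ h fun z hz => ?_
      rcases Sym2.mem_iff.1 hz with rfl | rfl
      · exact hx
      · exact hy
  · rintro ⟨h, hne⟩
    exact ⟨Or.inl h, hne⟩

/-- the smaller neighbours of the vertex `i` -/
lemma nb {f : ℕ} (T : SimpleGraph (Fin f)) (hN : Nice T) (i : ℕ) (h1 : 1 ≤ i) (hi : i < f) :
    ∃ (j : Fin f) (b : Prop), j.1 < i ∧
      ∀ a : Fin f, a.1 < i → (T.Adj ⟨i, hi⟩ a ↔ b ∧ a = j) := by
  by_cases h : ∃ j : Fin f, j.1 < i ∧ T.Adj ⟨i, hi⟩ j
  · obtain ⟨j, hj, hadj⟩ := h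
    refine ⟨j, True, hj, fun a ha => ⟨fun h => ⟨trivial, hN ⟨i, hi⟩ a j ha hj h hadj⟩, ?_⟩⟩
    rintro ⟨-, rfl⟩
    exact hadj
  · exact ⟨⟨0, by omega⟩, False, by show (0 : ℕ) < i; omega,
      fun a ha => ⟨fun h' => (h ⟨a, ha, h'⟩).elim, fun h' => h'.1.elim⟩⟩

open scoped Classical in
/-- the new vertices -/
lemma exists_N {V : Type} [Fintype V] (G : SimpleGraph V) (W U : Finset V) (d f q i : ℕ) (v : V)
    (hdeg : d ≤ (W.filter (fun w => G.Adj v w)).card) (hd : f * q + 1 ≤ d) (h1 : 1 ≤ i)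
    (hi : i < f) (hU : U.card ≤ 1 + (i - 1) * q) :
    ∃ N : Finset V, N.card = q ∧ ∀ w ∈ N, w ∈ W ∧ G.Adj v w ∧ w ∉ U := by
  have h2 := Finset.le_card_sdiff U (W.filter (fun w => G.Adj v w))
  have h3 : q ≤ (W.filter (fun w => G.Adj v w) \ U).card := by
    refine le_trans ?_ h2
    obtain ⟨k, rfl⟩ : ∃ k, i = k + 1 := ⟨i - 1, by omega⟩
    rw [Nat.add_sub_cancel] at hU
    have h4 : (k + 2) * q ≤ f * q := Nat.mul_le_mul_right q (by omega)
    have h5 : (k + 2) * q = k * q + q + q := by ring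
    omega
  obtain ⟨N, hN, hNc⟩ := Finset.exists_subset_card_eq h3
  refine ⟨N, hNc, fun w hw => ?_⟩
  have h4 := Finset.mem_sdiff.1 (hN hw)
  have h5 := Finset.mem_filter.1 h4.1
  exact ⟨h5.1, h5.2, h4.2⟩

lemma pow_bd {p : ℝ} (hp0 : 0 ≤ p) (hp1 : p ≤ 1) {f a b : ℕ} (ha : a ≤ 1) (hb : b ≤ f) :
    p * (1 - p) ^ f ≤ p ^ a * (1 - p) ^ b := by
  have h1 : p ≤ p ^ a := by
    interval_cases a
    · simpa using hp1
    · simp
  have h2 : (1 - p) ^ f ≤ (1 - p) ^ b :=
    pow_le_pow_of_le_one (by linarith) (by linarith) hb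
  exact mul_le_mul h1 h2 (pow_nonneg (by linarith) _) (pow_nonneg hp0 _)

open scoped Classical in
theorem step_aux (hF : SFub) (hT : STot) (hS : SStar) (V : Type) [Fintype V] (G : SimpleGraph V)
    (W : Finset V) (d f q : ℕ) (hdeg : ∀ v ∈ W, d ≤ (W.filter (fun w => G.Adj v w)).card)
    (hd : f * q + 1 ≤ d) (T : SimpleGraph (Fin f)) (hN : Nice T) (p : ℝ) (hp0 : 0 ≤ p)
    (hp1 : p ≤ 1) : ∀ (n i : ℕ), f - i = n → 1 ≤ i → i ≤ f → ∀ (U : Finset V) (s : Fin f → V)
    (F₀ : Finset (Sym2 V)), U.card ≤ 1 + (i - 1) * q →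
    (∀ a : Fin f, a.1 < i → s a ∈ U ∧ s a ∈ W) →
    F₀ ⊆ (ed G).filter (fun e => ∀ x ∈ e, x ∈ U) → Copy T (gr F₀) i s →
    Ex p ((ed G).filter (fun e => ¬ ∀ x ∈ e, x ∈ U))
      (fun F => if T.IsIndContained (gr (F₀ ∪ F)) then 0 else 1) ≤
    (n : ℝ) * (1 - p * (1 - p) ^ f) ^ q := by
  intro n
  induction n with
  | zero =>
    intro i hni h1 hif U s F₀ hU hs hF₀ hc
    have hlt : ∀ a : Fin f, a.1 < i := fun a => by have := a.2; omega
    have key : ∀ F ⊆ (ed G).filter (fun e => ¬ ∀ x ∈ e, x ∈ U),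
        T.IsIndContained (gr (F₀ ∪ F)) := by
      intro F hF'
      refine ⟨⟨⟨s, fun a b h => hc.1 a b (hlt a) (hlt b) h⟩, ?_⟩⟩
      intro a b
      change (gr (F₀ ∪ F)).Adj (s a) (s b) ↔ T.Adj a b
      rw [adj_union U F₀ F (fun e he => (Finset.mem_filter.1 (hF' he)).2) (hs a (hlt a)).1
        (hs b (hlt b)).1]
      exact hc.2 a b (hlt a) (hlt b)
    refine (Ex_mono hp0 hp1 (g := fun _ => 0) fun F hF' => ?_).trans ?_
    · rw [if_pos (key F hF')]
    · rw [hT]
      simp
  | succ n ih =>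
    intro i hni h1 hif U s F₀ hU hs hF₀ hc
    have hi : i < f := by omega
    obtain ⟨j, b, hj, hb⟩ := nb T hN i h1 hi
    obtain ⟨N, hNc, hNp⟩ := exists_N G W U d f q i (s j) (hdeg _ (hs j hj).2) hd h1 hi hU
    obtain ⟨iF, hiF⟩ : ∃ iF : Fin f, iF = ⟨i, hi⟩ := ⟨_, rfl⟩
    have hiv : iF.1 = i := by rw [hiF]
    rw [← hiF] at hb
    obtain ⟨U', hU'⟩ : ∃ U', U' = U ∪ N := ⟨_, rfl⟩
    have hUU' : U ⊆ U' := by rw [hU']; exact Finset.subset_union_left
    have hNU' : N ⊆ U' := by rw [hU']; exact Finset.subset_union_right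
    set E := (ed G).filter (fun e => ¬ ∀ x ∈ e, x ∈ U) with hE
    obtain ⟨E2, hE2⟩ : ∃ E2, E2 = (ed G).filter (fun e => ¬ ∀ x ∈ e, x ∈ U') := ⟨_, rfl⟩
    obtain ⟨E1, hE1⟩ : ∃ E1, E1 = E \ E2 := ⟨_, rfl⟩
    have hE2E : E2 ⊆ E := by
      intro e he
      rw [hE2, Finset.mem_filter] at he
      rw [hE, Finset.mem_filter]
      exact ⟨he.1, fun h => he.2 fun x hx => hUU' (h x hx)⟩
    have hun : E1 ∪ E2 = E := by rw [hE1]; exact Finset.sdiff_union_of_subset hE2E
    have hdj : Disjoint E1 E2 := by rw [hE1]; exact Finset.sdiff_disjoint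
    have hE1e : ∀ e ∈ E1, e ∈ ed G ∧ (¬ ∀ x ∈ e, x ∈ U) ∧ ∀ x ∈ e, x ∈ U' := by
      intro e he
      rw [hE1, Finset.mem_sdiff, hE, hE2, Finset.mem_filter, Finset.mem_filter] at he
      refine ⟨he.1.1, he.1.2, ?_⟩
      by_contra h
      exact he.2 ⟨he.1.1, h⟩
    -- the stars
    obtain ⟨St, hSt⟩ : ∃ St : V → Finset (Sym2 V), ∀ w e, e ∈ St w ↔
        e ∈ ed G ∧ ∃ a : Fin f, a.1 < i ∧ e = s(w, s a) :=
      ⟨fun w => (ed G).filter (fun e => ∃ a : Fin f, a.1 < i ∧ e = s(w, s a)),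
        fun w e => Finset.mem_filter⟩
    obtain ⟨tt, htt, htc⟩ : ∃ tt : V → Finset (Sym2 V), (∀ w e, e ∈ tt w ↔
        b ∧ e = s(w, s j)) ∧ ∀ w, (tt w).card ≤ 1 := by
      refine ⟨fun w => if b then {s(w, s j)} else ∅, fun w e => ?_, fun w => ?_⟩
      · by_cases hbb : b
        · simp [hbb]
        · simp [hbb]
      · by_cases hbb : b
        · simp [hbb]
        · simp [hbb]
    have hSE : ∀ w ∈ N, St w ⊆ E1 := by
      intro w hw e he
      obtain ⟨he1, a, ha, rfl⟩ := (hSt w e).1 he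
      obtain ⟨-, -, hwU⟩ := hNp w hw
      rw [hE1, Finset.mem_sdiff, hE, hE2, Finset.mem_filter, Finset.mem_filter]
      refine ⟨⟨he1, fun h => hwU (h w (Sym2.mem_mk_left _ _))⟩, fun h => h.2 fun x hx => ?_⟩
      rcases Sym2.mem_iff.1 hx with rfl | rfl
      · exact hNU' hw
      · exact hUU' (hs a ha).1
    have htS : ∀ w ∈ N, tt w ⊆ St w := by
      intro w hw e he
      obtain ⟨-, rfl⟩ := (htt w e).1 he
      refine (hSt w _).2 ⟨?_, j, hj, rfl⟩
      rw [mem_ed]
      exact (hNp w hw).2.1.symm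
    have hdis : ∀ w ∈ N, ∀ w' ∈ N, w ≠ w' → Disjoint (St w) (St w') := by
      intro w hw w' hw' hne
      rw [Finset.disjoint_left]
      intro e he he'
      obtain ⟨-, a, ha, h0⟩ := (hSt w e).1 he
      obtain ⟨-, a', ha', h⟩ := (hSt w' e).1 he'
      have hm : w ∈ s(w', s a') := by
        rw [← h, h0]
        exact Sym2.mem_mk_left _ _
      rcases Sym2.mem_iff.1 hm with h2 | h2
      · exact hne h2
      · apply (hNp w hw).2.2
        rw [h2]
        exact (hs a' ha').1
    have hcard : ∀ w ∈ N, p * (1 - p) ^ f ≤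
        p ^ (tt w).card * (1 - p) ^ ((St w).card - (tt w).card) := by
      intro w _
      refine pow_bd hp0 hp1 (htc w) ((Nat.sub_le _ _).trans ?_)
      have h3 : St w ⊆ (univ : Finset (Fin f)).image (fun a => s(w, s a)) := by
        intro e he
        obtain ⟨-, a, -, rfl⟩ := (hSt w e).1 he
        exact Finset.mem_image_of_mem _ (Finset.mem_univ a)
      refine (Finset.card_le_card h3).trans (Finset.card_image_le.trans ?_)
      rw [Finset.card_univ, Fintype.card_fin]
    have hstar := hS (Sym2 V) V p (p * (1 - p) ^ f) hp0 hp1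
      (mul_nonneg hp0 (pow_nonneg (by linarith) _)) N St tt E1 hSE htS hdis hcard
    rw [hNc] at hstar
    obtain ⟨c, hcd⟩ : ∃ c : ℝ, c = (1 - p * (1 - p) ^ f) ^ q := ⟨_, rfl⟩
    have hc0 : 0 ≤ c := by
      rw [hcd]
      apply pow_nonneg
      have h3 : (1 - p) ^ f ≤ 1 := pow_le_one₀ (by linarith) (by linarith)
      have h4 : p * (1 - p) ^ f ≤ 1 * 1 :=
        mul_le_mul hp1 h3 (pow_nonneg (by linarith) _) zero_le_one
      linarith
    rw [← hcd] at hstar ⊢
    rw [← hcd] at ih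
    have hiq : (i - 1) * q + q = i * q := by
      rw [← Nat.succ_mul, Nat.succ_eq_add_one, Nat.sub_add_cancel h1]
    have hU'c : U'.card ≤ 1 + (i + 1 - 1) * q := by
      rw [hU', Nat.add_sub_cancel]
      have h3 := Finset.card_union_le U N
      rw [hNc] at h3
      omega
    have hinner : ∀ F₁ ⊆ E1, Ex p E2 (fun F₂ =>
        if T.IsIndContained (gr (F₀ ∪ (F₁ ∪ F₂))) then (0 : ℝ) else 1) ≤
        (if ∀ w ∈ N, F₁ ∩ St w ≠ tt w then 1 else 0) + (n : ℝ) * c := by
      intro F₁ hF₁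
      by_cases hall : ∀ w ∈ N, F₁ ∩ St w ≠ tt w
      · rw [if_pos hall]
        have h3 : Ex p E2 (fun F₂ =>
            if T.IsIndContained (gr (F₀ ∪ (F₁ ∪ F₂))) then (0 : ℝ) else 1) ≤
            Ex p E2 (fun _ => 1) := Ex_mono hp0 hp1 fun F _ => by
          split_ifs
          · exact zero_le_one
          · exact le_rfl
        rw [hT] at h3
        have h4 : 0 ≤ (n : ℝ) * c := mul_nonneg (Nat.cast_nonneg _) hc0
        linarith
      · rw [if_neg hall, zero_add]
        push Not at hall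
        obtain ⟨w, hw, hwt⟩ := hall
        obtain ⟨hwW, hwadj, hwU⟩ := hNp w hw
        have e1 : (fun F₂ => if T.IsIndContained (gr (F₀ ∪ (F₁ ∪ F₂))) then (0 : ℝ) else 1) =
            fun F₂ => if T.IsIndContained (gr ((F₀ ∪ F₁) ∪ F₂)) then (0 : ℝ) else 1 := by
          funext F₂
          rw [Finset.union_assoc]
        rw [e1, hE2]
        have hlt : ∀ a : Fin f, a.1 < i + 1 → a ≠ iF → a.1 < i := by
          intro a ha hne
          have h3 : a.1 ≠ i := fun h => hne (Fin.ext (h.trans hiv.symm))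
          omega
        have hF₁U : ∀ e ∈ F₁, ¬ ∀ x ∈ e, x ∈ U := fun e he => (hE1e e (hF₁ he)).2.1
        have hw0 : ∀ a : Fin f, a.1 < i → w ≠ s a := fun a ha h => hwU (h ▸ (hs a ha).1)
        -- the edges from the new vertex
        have hnew : ∀ a : Fin f, a.1 < i →
            ((gr (F₀ ∪ F₁)).Adj w (s a) ↔ T.Adj iF a) := by
          intro a ha
          rw [gr_adj, hb a ha, Finset.mem_union]
          constructor
          · rintro ⟨h | h, -⟩
            · exfalso
              exact hwU ((Finset.mem_filter.1 (hF₀ h)).2 w (Sym2.mem_mk_left _ _))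
            · have h3 : s(w, s a) ∈ tt w := by
                rw [← hwt, Finset.mem_inter]
                exact ⟨h, (hSt w _).2 ⟨(hE1e _ (hF₁ h)).1, a, ha, rfl⟩⟩
              obtain ⟨hbb, h4⟩ := (htt w _).1 h3
              exact ⟨hbb, hc.1 a j ha hj (Sym2.congr_right.1 h4)⟩
          · rintro ⟨hbb, rfl⟩
            refine ⟨Or.inr ?_, hw0 a ha⟩
            have h3 : s(w, s a) ∈ tt w := (htt w _).2 ⟨hbb, rfl⟩
            rw [← hwt, Finset.mem_inter] at h3
            exact h3.1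
        refine ih (i + 1) (by omega) (by omega) (by omega) U' (Function.update s iF w) (F₀ ∪ F₁)
          hU'c (fun a ha => ?_) ?_ ⟨fun a a' ha ha' h => ?_, fun a a' ha ha' => ?_⟩
        · by_cases h3 : a = iF
          · rw [h3, Function.update_self]
            exact ⟨hNU' hw, hwW⟩
          · rw [Function.update_of_ne h3]
            exact ⟨hUU' (hs a (hlt a ha h3)).1, (hs a (hlt a ha h3)).2⟩
        · intro e he
          rw [Finset.mem_filter]
          rcases Finset.mem_union.1 he with h3 | h3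
          · have h4 := Finset.mem_filter.1 (hF₀ h3)
            exact ⟨h4.1, fun x hx => hUU' (h4.2 x hx)⟩
          · have h4 := hE1e e (hF₁ h3)
            exact ⟨h4.1, h4.2.2⟩
        · by_cases h3 : a = iF
          · by_cases h4 : a' = iF
            · rw [h3, h4]
            · rw [h3, Function.update_self, Function.update_of_ne h4] at h
              exact (hw0 a' (hlt a' ha' h4) h).elim
          · by_cases h4 : a' = iF
            · rw [h4, Function.update_self, Function.update_of_ne h3] at h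
              exact (hw0 a (hlt a ha h3) h.symm).elim
            · rw [Function.update_of_ne h3, Function.update_of_ne h4] at h
              exact hc.1 a a' (hlt a ha h3) (hlt a' ha' h4) h
        · by_cases h3 : a = iF
          · by_cases h4 : a' = iF
            · rw [h3, h4]
              exact ⟨fun h => (SimpleGraph.irrefl _ h).elim, fun h => (SimpleGraph.irrefl _ h).elim⟩
            · rw [h3, Function.update_self, Function.update_of_ne h4]
              exact hnew a' (hlt a' ha' h4)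
          · by_cases h4 : a' = iF
            · rw [h4, Function.update_self, Function.update_of_ne h3, SimpleGraph.adj_comm,
                hnew a (hlt a ha h3), SimpleGraph.adj_comm]
            · rw [Function.update_of_ne h3, Function.update_of_ne h4,
                adj_union U F₀ F₁ hF₁U (hs a (hlt a ha h3)).1 (hs a' (hlt a' ha' h4)).1]
              exact hc.2 a a' (hlt a ha h3) (hlt a' ha' h4)
    rw [← hun, hF (Sym2 V) p E1 E2 _ hdj]
    calc Ex p E1 (fun F₁ => Ex p E2 (fun F₂ =>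
          if T.IsIndContained (gr (F₀ ∪ (F₁ ∪ F₂))) then (0 : ℝ) else 1)) ≤
        Ex p E1 (fun F₁ => (if ∀ w ∈ N, F₁ ∩ St w ≠ tt w then 1 else 0) + (n : ℝ) * c) :=
          Ex_mono hp0 hp1 hinner
      _ = Ex p E1 (fun F₁ => if ∀ w ∈ N, F₁ ∩ St w ≠ tt w then 1 else 0) +
          Ex p E1 (fun _ => (n : ℝ) * c) := Ex_add _ _ _ _
      _ ≤ c + (n : ℝ) * c := by
          rw [hT]
          refine add_le_add (le_trans (Ex_mono hp0 hp1 fun F _ => ?_) hstar) le_rfl
          split_ifs with h h'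
          · exact le_rfl
          · exact (h' fun w hw hh => h w hw (by
              rw [← hh]
              ext e
              simp only [Finset.mem_inter])).elim
          · exact zero_le_one
          · exact le_rfl
      _ = ((n + 1 : ℕ) : ℝ) * c := by
          push_cast
          ring

theorem main (hF : SFub) (hT : STot) (hS : SStar) : SStep := by
  intro V _ G W d f q hdeg hd T hN p hp0 hp1 i h1 hif U s F₀ hU hs hF₀ hc
  exact step_aux hF hT hS V G W d f q hdeg hd T hN p hp0 hp1 (f - i) i rfl h1 hif U s F₀ hU hs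
    hF₀ hc

end Pool.Agent.Y954.GX
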